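import Pool.Agent.P8H3.GB.AllP

/-!
# Greenberg's conjecture for all `p ≥ 5` and almost all real characters of conductor `2^a 3^b` or `p 2^a 3^b`

Let `p ≥ 5` be a prime and let `k` be a real abelian field of conductor dividing `p 2^a 3^b`. The characters of `k` are
even and of the form `θ = ψ ω^m`, with `ω` the Teichmüller character modulo `p`, `ψ` primitive modulo `N = 2^c 3^d`,
`c ≤ a`, `d ≤ b`, `1 ≤ m ≤ p - 1`, `ψ(-1) = (-1)^m`. We show that the value

  `L_p(1 - m, θ) = - (1 - ψ(p) p^(m-1)) B_{m,ψ} / m`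

of the `p`-adic `L`-function is a unit at all places above `p` if `N ≥ p^11`. Then the `θ`-parts of the `p`-class groups
`A_n` of the layers `k_n` are trivial (Iwasawa; the main conjecture), and the orders of the `A_n` are products over the
`θ` with `N < p^11`: there is a finite set of real abelian fields, for every `p`, such that Greenberg's conjecture for
them implies the conjecture for all real abelian fields of conductor dividing `p 2^a 3^b`, `a, b ≥ 0`.

Proof. If one of the two prime powers is much larger than the other one, this is the method for one large prime power.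
Otherwise the vanishing of the character sum in characteristic `p` gives relations `P(y) + s Q(y') = 0`, for two
polynomials `P`, `Q` of degree `m - 1`, for many integers `y`, `y'` with `y = -y'` modulo `2^a` and `y = y'` modulo
`3^b`, which is impossible.
-/

set_option autoImplicit false

namespace Pool.Agent.Results.MP_750374_nt.AllPrimesTwoThree

/-- The generalized Bernoulli number `B_{m,ψ} = N^(m-1) ∑_{a=1}^N ψ(a) B_m(a/N)`. -/
noncomputable def genBernoulli (m : ℕ) {N : ℕ} (ψ : DirichletCharacter ℂ N) : ℂ :=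
  (N : ℂ) ^ (m - 1) * ∑ a ∈ Finset.Icc 1 N, ψ (a : ZMod N) *
    (((Polynomial.bernoulli m).eval ((a : ℚ) / N) : ℚ) : ℂ)

/-- `(1 - ψ(p) p^(m-1)) B_{m,ψ} / m`, the value at `1 - m` of the `L`-function of `ψ` without Euler factor
at `p` (up to the sign). -/
noncomputable def lValue (p m : ℕ) {N : ℕ} (ψ : DirichletCharacter ℂ N) : ℂ :=
  (1 - ψ (p : ZMod N) * (p : ℂ) ^ (m - 1)) * genBernoulli m ψ / m

/-- `z` is a unit at all places above `p`: it is not zero, and for some integer `c` prime to `p` the numbers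
`c z` and `c / z` are algebraic integers. -/
def IsUnitAt (p : ℕ) (z : ℂ) : Prop :=
  z ≠ 0 ∧ ∃ c : ℤ, IsCoprime (p : ℤ) c ∧ IsIntegral ℤ ((c : ℂ) * z) ∧ IsIntegral ℤ ((c : ℂ) * z⁻¹)

/-- For all primes `p ≥ 5`, all `a, b ≥ 0` with `2^a 3^b ≥ p^11`, `1 ≤ m ≤ p - 1` and primitive characters `ψ` modulo
`2^a 3^b` with `ψ(-1) = (-1)^m` the value `(1 - ψ(p) p^(m-1)) B_{m,ψ} / m` is a unit at all places above `p`. -/
theorem result {p : ℕ} (hp : p.Prime) (h5 : 5 ≤ p) (a b m : ℕ) (hm1 : 1 ≤ m) (hmp : m ≤ p - 1)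
    (hsize : p ^ 11 ≤ 2 ^ a * 3 ^ b)
    (ψ : DirichletCharacter ℂ (2 ^ a * 3 ^ b)) (hprim : ψ.IsPrimitive) (hpar : ψ (-1) = (-1) ^ m) :
    IsUnitAt p (lValue p m ψ) :=
  Pool.Agent.P8H3.GB.unit_all hp h5 hm1 hmp rfl hsize ψ hprim hpar

end Pool.Agent.Results.MP_750374_nt.AllPrimesTwoThree
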