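import Pool.Agent.P8H3.GB.Five

/-!
# Greenberg's conjecture for `p = 5` and the real abelian fields of conductor dividing `5 2^a 3^b`

Let `k` be a real abelian field of conductor dividing `5 2^a 3^b`. The characters `θ` of `k` are even and of the form
`ψ ω^m`, with `ω` the Teichmüller character modulo `5`, `ψ` primitive modulo `2^c 3^d`, `c ≤ a`, `d ≤ b`, `1 ≤ m ≤ 4`,
`ψ(-1) = (-1)^m`. We show that the value

  `L_5(1 - m, θ) = - (1 - ψ(5) 5^(m-1)) B_{m,ψ} / m`

of the `5`-adic `L`-function is a unit at all places above `5`, except if `(c, d, m)` is one of the six triples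
`(0, 0, 4)`, `(2, 0, 1)`, `(3, 1, 1)`, `(4, 0, 2)`, `(4, 1, 3)`, `(2, 2, 4)`. If the value is a unit then the `θ`-part of
the `5`-class groups `A_n` of the cyclotomic `ℤ_5`-extension of `k` is trivial (Iwasawa; the main conjecture). In the six
cases the conductor of `θ` is `1`, `20`, `120`, `80`, `240`, `36`, and the `θ`-part is trivial as the class numbers of the
real cyclotomic fields of these conductors are one (van der Linden) and the prime `5` gives no contribution. Hence
`A_n = 0` for all `n`, so `λ_5(k) = μ_5(k) = 0`, for all real abelian fields `k` of conductor dividing `5 2^a 3^b`.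

Proof. If one of the two prime powers is much larger than the other one, this is the method for one prime power.
Otherwise, and for large conductors, the vanishing of the character sum in characteristic `5` would give relations
`P(y) + s Q(y') = 0`, for two polynomials `P`, `Q` of degree `m - 1`, for many integers `y`, `y'` with `y = -y'` modulo `2^a`
and `y = y'` modulo `3^b`, which is impossible. There remain `63` pairs `(a, b)`, which are settled by an explicit
calculation in the field with `25` elements.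
-/

set_option autoImplicit false

namespace Pool.Agent.Results.MP_750374_nt.FiveTwoThree

/-- The generalized Bernoulli number `B_{m,ψ} = N^(m-1) ∑_{a=1}^N ψ(a) B_m(a/N)`. -/
noncomputable def genBernoulli (m : ℕ) {N : ℕ} (ψ : DirichletCharacter ℂ N) : ℂ :=
  (N : ℂ) ^ (m - 1) * ∑ a ∈ Finset.Icc 1 N, ψ (a : ZMod N) *
    (((Polynomial.bernoulli m).eval ((a : ℚ) / N) : ℚ) : ℂ)

/-- `(1 - ψ(p) p^(m-1)) B_{m,ψ} / m`, the value at `1 - m` of the `L`-function of `ψ` without Euler factor
at `p` (up to the sign). -/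
noncomputable def lValue (p m : ℕ) {N : ℕ} (ψ : DirichletCharacter ℂ N) : ℂ :=
  (1 - ψ (p : ZMod N) * (p : ℂ) ^ (m - 1)) * genBernoulli m ψ / m

/-- `z` is a unit at all places above `p`: it is not zero, and for some integer `c` prime to `p` the numbers
`c z` and `c / z` are algebraic integers. -/
def IsUnitAt (p : ℕ) (z : ℂ) : Prop :=
  z ≠ 0 ∧ ∃ c : ℤ, IsCoprime (p : ℤ) c ∧ IsIntegral ℤ ((c : ℂ) * z) ∧ IsIntegral ℤ ((c : ℂ) * z⁻¹)

/-- For `a, b ≥ 0`, `1 ≤ m ≤ 4` and a primitive character `ψ` modulo `2^a 3^b` with `ψ(-1) = (-1)^m` the value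
`(1 - ψ(5) 5^(m-1)) B_{m,ψ} / m` is a unit at all places above `5`, if `(a, b, m)` is none of the triples `(0,0,4)`,
`(2,0,1)`, `(3,1,1)`, `(4,0,2)`, `(4,1,3)`, `(2,2,4)`. -/
theorem result (a b m : ℕ) (hm1 : 1 ≤ m) (hm4 : m ≤ 4)
    (hexc : (a, b, m) ∉ ({(0, 0, 4), (2, 0, 1), (3, 1, 1), (4, 0, 2), (4, 1, 3), (2, 2, 4)} : Set (ℕ × ℕ × ℕ)))
    (ψ : DirichletCharacter ℂ (2 ^ a * 3 ^ b)) (hprim : ψ.IsPrimitive) (hpar : ψ (-1) = (-1) ^ m) :
    IsUnitAt 5 (lValue 5 m ψ) := by
  refine Pool.Agent.P8H3.GB.unit_five (a := a) (b := b) rfl hm1 hm4 ψ hprim hpar ?_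
  intro h
  apply hexc
  unfold Pool.Agent.P8H3.GB.Exc at h
  simp only [Set.mem_insert_iff, Set.mem_singleton_iff, Prod.mk.injEq]
  exact h

end Pool.Agent.Results.MP_750374_nt.FiveTwoThree
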